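import Pool.Agent.Helper62.OP.Defs

/-!
# OP, block O8b: odd moments of a Dirichlet polynomial over primes
-/

set_option autoImplicit false
open MeasureTheory Set Filter Topology

namespace Pool.Agent.Helper53.OP

open Pool.Agent.Helper62.OP (DC)
open ArithmeticFunction (cardFactors)

/-- the frequencies -/
noncomputable def th (x : ℕ × Bool) : ℝ := if x.2 then -Real.log x.1 else Real.log x.1

/-- the coefficients -/
noncomputable def uc (w : ℕ → ℂ) (x : ℕ × Bool) : ℂ :=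
  (if x.2 then w x.1 else (starRingEnd ℂ) (w x.1)) * (((x.1 : ℝ) ^ (-(1 / 2) : ℝ) : ℝ) : ℂ) / 2

theorem term_eq (w : ℂ) {p : ℕ} (hp : 0 < p) (t : ℝ) : w * (p : ℂ) ^ (-((1 / 2 : ℂ) + (t : ℂ) * Complex.I)) =
    w * (((p : ℝ) ^ (-(1 / 2) : ℝ) : ℝ) : ℂ) * Complex.exp (((-Real.log p * t : ℝ) : ℂ) * Complex.I) := by
  have h0 : (p : ℂ) ≠ 0 := by exact_mod_cast hp.ne'
  have hp0 : (0 : ℝ) < p := by exact_mod_cast hp
  rw [mul_assoc]
  congr 1
  rw [Complex.cpow_def_of_ne_zero h0, Real.rpow_def_of_pos hp0, Complex.ofReal_exp, ← Complex.exp_add,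
    ← Complex.natCast_log]
  congr 1
  push_cast
  ring

theorem re_eq (Q : Finset ℕ) (hQ : ∀ p ∈ Q, 0 < p) (w : ℕ → ℂ) (t : ℝ) : (((DC Q w t).re : ℝ) : ℂ) =
    ∑ x ∈ Q ×ˢ (Finset.univ : Finset Bool), uc w x * Complex.exp (((th x * t : ℝ) : ℂ) * Complex.I) := by
  rw [Finset.sum_product, Complex.re_eq_add_conj]
  have h1 : DC Q w t = ∑ p ∈ Q, w p * (((p : ℝ) ^ (-(1 / 2) : ℝ) : ℝ) : ℂ) *
      Complex.exp (((-Real.log p * t : ℝ) : ℂ) * Complex.I) := by
    unfold DC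
    exact Finset.sum_congr rfl fun p hp => term_eq _ (hQ p hp) t
  have h2 : (starRingEnd ℂ) (DC Q w t) = ∑ p ∈ Q, (starRingEnd ℂ) (w p) * (((p : ℝ) ^ (-(1 / 2) : ℝ) : ℝ) : ℂ) *
      Complex.exp (((Real.log p * t : ℝ) : ℂ) * Complex.I) := by
    rw [h1, map_sum]
    refine Finset.sum_congr rfl fun p _ => ?_
    rw [map_mul, map_mul, Complex.conj_ofReal, ← Complex.exp_conj, map_mul, Complex.conj_ofReal, Complex.conj_I]
    congr 2
    push_cast
    ring
  rw [h2, h1, ← Finset.sum_add_distrib, Finset.sum_div]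
  refine Finset.sum_congr rfl fun p _ => ?_
  rw [Fintype.sum_bool]
  simp only [uc, th]
  simp only [if_true, if_false, Bool.false_eq_true]
  ring

theorem uc_norm (w : ℕ → ℂ) (x : ℕ × Bool) : ‖uc w x‖ = ‖w x.1‖ * (x.1 : ℝ) ^ (-(1 / 2) : ℝ) / 2 := by
  unfold uc
  rw [norm_div, norm_mul, Complex.norm_real, Real.norm_of_nonneg (by positivity), RCLike.norm_ofNat]
  congr 2
  split_ifs
  · rfl
  · exact RCLike.norm_conj _

/-- an oscillating integral -/
theorem osc {θ T : ℝ} (hθ : θ ≠ 0) : ‖∫ t in T..(2 * T), Complex.exp (((θ * t : ℝ) : ℂ) * Complex.I)‖ ≤ 2 / |θ| := by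
  have h0 : (θ : ℂ) * Complex.I ≠ 0 := mul_ne_zero (by exact_mod_cast hθ) Complex.I_ne_zero
  have h1 : (fun t : ℝ => Complex.exp (((θ * t : ℝ) : ℂ) * Complex.I)) =
      fun t : ℝ => Complex.exp (((θ : ℂ) * Complex.I) * (t : ℂ)) := by
    funext t
    congr 1
    push_cast
    ring
  rw [h1, integral_exp_mul_complex h0, norm_div, norm_mul, Complex.norm_I, mul_one, Complex.norm_real, Real.norm_eq_abs]
  refine div_le_div_of_nonneg_right ?_ (abs_nonneg _)
  have h2 : ∀ s : ℝ, ‖Complex.exp (((θ : ℂ) * Complex.I) * (s : ℂ))‖ = 1 := by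
    intro s
    rw [show ((θ : ℂ) * Complex.I) * (s : ℂ) = ((θ * s : ℝ) : ℂ) * Complex.I by push_cast; ring]
    exact Complex.norm_exp_ofReal_mul_I _
  have h3 := norm_sub_le (Complex.exp (((θ : ℂ) * Complex.I) * ((2 * T : ℝ) : ℂ)))
    (Complex.exp (((θ : ℂ) * Complex.I) * (T : ℂ)))
  rw [h2, h2] at h3
  linarith

/-- different integers have different logarithms -/
theorem log_sep {a b : ℕ} (ha : 0 < a) (hab : a < b) : 1 / (b : ℝ) ≤ Real.log b - Real.log a := by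
  have ha0 : (0 : ℝ) < a := by exact_mod_cast ha
  have hb0 : (0 : ℝ) < b := by exact_mod_cast ha.trans hab
  have h1 := Real.one_sub_inv_le_log_of_pos (show 0 < (b : ℝ) / a by positivity)
  rw [Real.log_div hb0.ne' ha0.ne', inv_div] at h1
  refine le_trans ?_ h1
  have h2 : (a : ℝ) + 1 ≤ b := by exact_mod_cast hab
  rw [div_le_iff₀ hb0, sub_mul, div_mul_cancel₀ _ hb0.ne']
  linarith

theorem card_prod {ι : Type*} (s : Finset ι) (f : ι → ℕ) (hf : ∀ i ∈ s, (f i).Prime) :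
    cardFactors (∏ i ∈ s, f i) = s.card := by
  classical
  induction s using Finset.induction_on with
  | empty => simp
  | insert a s ha ih =>
    rw [Finset.prod_insert ha, ArithmeticFunction.cardFactors_mul (hf a (Finset.mem_insert_self _ _)).ne_zero
      (Finset.prod_ne_zero_iff.2 fun i hi => (hf i (Finset.mem_insert_of_mem hi)).ne_zero),
      ih fun i hi => hf i (Finset.mem_insert_of_mem hi), ArithmeticFunction.cardFactors_apply_prime
      (hf a (Finset.mem_insert_self _ _)), Finset.card_insert_of_notMem ha, add_comm]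

/-- the frequencies of an odd product are not small -/
theorem th_sep {Q : Finset ℕ} {Y : ℝ} (hY : 1 ≤ Y) (hQ : ∀ p ∈ Q, p.Prime ∧ (p : ℝ) ≤ Y) {N : ℕ} (hN : Odd N)
    (f : Fin N → ℕ × Bool) (hf : ∀ i, (f i).1 ∈ Q) : 1 / Y ^ N ≤ |∑ i, th (f i)| := by
  classical
  set s := (Finset.univ : Finset (Fin N)).filter fun i => (f i).2 = true with hs
  set r := (Finset.univ : Finset (Fin N)).filter fun i => ¬ (f i).2 = true with hr
  set A := ∏ i ∈ s, (f i).1 with hA
  set B := ∏ i ∈ r, (f i).1 with hB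
  have hsr : s.card + r.card = N := by
    rw [hs, hr, Finset.card_filter_add_card_filter_not (fun i => (f i).2 = true), Finset.card_univ, Fintype.card_fin]
  have hpr : ∀ i, ((f i).1).Prime := fun i => (hQ _ (hf i)).1
  have hAB : A ≠ B := by
    intro h
    have h1 := congrArg cardFactors h
    rw [hA, hB, card_prod s _ fun i _ => hpr i, card_prod r _ fun i _ => hpr i] at h1
    obtain ⟨j, hj⟩ := hN
    omega
  have hA0 : 0 < A := Finset.prod_pos fun i _ => (hpr i).pos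
  have hB0 : 0 < B := Finset.prod_pos fun i _ => (hpr i).pos
  have hbd : ∀ u : Finset (Fin N), ((∏ i ∈ u, (f i).1 : ℕ) : ℝ) ≤ Y ^ N := by
    intro u
    push_cast
    calc ∏ i ∈ u, ((f i).1 : ℝ) ≤ ∏ _i ∈ u, Y :=
          Finset.prod_le_prod (fun i _ => Nat.cast_nonneg _) fun i _ => (hQ _ (hf i)).2
      _ = Y ^ u.card := by rw [Finset.prod_const]
      _ ≤ Y ^ N := by
          refine pow_le_pow_right₀ hY ?_
          have := Finset.card_le_univ u
          rwa [Fintype.card_fin] at this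
  have hsum : ∑ i, th (f i) = Real.log B - Real.log A := by
    rw [← Finset.sum_filter_add_sum_filter_not Finset.univ (fun i => (f i).2 = true)]
    have h1 : ∑ i ∈ s, th (f i) = -Real.log A := by
      rw [hA]
      push_cast
      rw [Real.log_prod (fun i _ => by exact_mod_cast (hpr i).ne_zero), ← Finset.sum_neg_distrib]
      refine Finset.sum_congr rfl fun i hi => ?_
      unfold th
      rw [if_pos (Finset.mem_filter.1 hi).2]
    have h2 : ∑ i ∈ r, th (f i) = Real.log B := by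
      rw [hB]
      push_cast
      rw [Real.log_prod (fun i _ => by exact_mod_cast (hpr i).ne_zero)]
      refine Finset.sum_congr rfl fun i hi => ?_
      unfold th
      rw [if_neg (Finset.mem_filter.1 hi).2]
    rw [h1, h2]
    ring
  rw [hsum]
  rcases lt_or_gt_of_ne hAB with h | h
  · refine le_trans ?_ ((log_sep hA0 h).trans (le_abs_self _))
    exact one_div_le_one_div_of_le (by exact_mod_cast hB0) (hbd r)
  · refine le_trans ?_ ((log_sep hB0 h).trans ((le_of_eq ?_).trans (neg_le_abs _)))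
    · exact one_div_le_one_div_of_le (by exact_mod_cast hA0) (hbd s)
    · ring

/-- the integral of an odd power -/
theorem odd_int {Q : Finset ℕ} {Y T : ℝ} (hY : 1 ≤ Y) (hQ : ∀ p ∈ Q, p.Prime ∧ (p : ℝ) ≤ Y) {N : ℕ} (hN : Odd N)
    (w : ℕ → ℂ) (hT : 0 ≤ T) : |∫ t in Icc T (2 * T), (DC Q w t).re ^ N| ≤
      2 * Y ^ N * (∑ p ∈ Q, ‖w p‖ * (p : ℝ) ^ (-(1 / 2) : ℝ)) ^ N := by
  classical
  have hTT : T ≤ 2 * T := by linarith
  set S := Q ×ˢ (Finset.univ : Finset Bool) with hS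
  have e1 : (((∫ t in Icc T (2 * T), (DC Q w t).re ^ N) : ℝ) : ℂ) =
      ∑ f ∈ Fintype.piFinset (fun _ : Fin N => S), (∏ i, uc w (f i)) *
        ∫ t in T..(2 * T), Complex.exp ((((∑ i, th (f i)) * t : ℝ) : ℂ) * Complex.I) := by
    rw [integral_Icc_eq_integral_Ioc, ← intervalIntegral.integral_of_le hTT, ← intervalIntegral.integral_ofReal]
    have h1 : ∀ t : ℝ, (((DC Q w t).re ^ N : ℝ) : ℂ) = ∑ f ∈ Fintype.piFinset (fun _ : Fin N => S),
        (∏ i, uc w (f i)) * Complex.exp ((((∑ i, th (f i)) * t : ℝ) : ℂ) * Complex.I) := by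
      intro t
      rw [Complex.ofReal_pow, re_eq Q (fun p hp => (hQ p hp).1.pos) w t, ← hS]
      have h2 : (∑ x ∈ S, uc w x * Complex.exp (((th x * t : ℝ) : ℂ) * Complex.I)) ^ N =
          ∏ _i : Fin N, ∑ x ∈ S, uc w x * Complex.exp (((th x * t : ℝ) : ℂ) * Complex.I) := by
        rw [Finset.prod_const, Finset.card_univ, Fintype.card_fin]
      rw [h2, Finset.prod_univ_sum]
      refine Finset.sum_congr rfl fun f _ => ?_
      rw [Finset.prod_mul_distrib, ← Complex.exp_sum]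
      congr 2
      push_cast
      rw [Finset.sum_mul, Finset.sum_mul]
    simp_rw [h1]
    rw [intervalIntegral.integral_finsetSum]
    · refine Finset.sum_congr rfl fun f _ => ?_
      rw [intervalIntegral.integral_const_mul]
    · intro f _
      refine Continuous.intervalIntegrable ?_ _ _
      fun_prop
  have e2 : |∫ t in Icc T (2 * T), (DC Q w t).re ^ N| = ‖(((∫ t in Icc T (2 * T), (DC Q w t).re ^ N) : ℝ) : ℂ)‖ := by
    rw [Complex.norm_real, Real.norm_eq_abs]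
  rw [e2, e1]
  refine (norm_sum_le _ _).trans ?_
  have h3 : ∀ f ∈ Fintype.piFinset (fun _ : Fin N => S), ‖(∏ i, uc w (f i)) *
      ∫ t in T..(2 * T), Complex.exp ((((∑ i, th (f i)) * t : ℝ) : ℂ) * Complex.I)‖ ≤
      (∏ i, ‖uc w (f i)‖) * (2 * Y ^ N) := by
    intro f hf
    rw [norm_mul, norm_prod]
    refine mul_le_mul_of_nonneg_left ?_ (Finset.prod_nonneg fun i _ => norm_nonneg _)
    have hfQ : ∀ i, (f i).1 ∈ Q := fun i => (Finset.mem_product.1 (Fintype.mem_piFinset.1 hf i)).1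
    have h4 := th_sep hY hQ hN f hfQ
    have hY0 : 0 < Y ^ N := by positivity
    have h5 : 0 < |∑ i, th (f i)| := lt_of_lt_of_le (by positivity) h4
    refine (osc (abs_pos.1 h5)).trans ?_
    rw [div_le_iff₀ h5]
    have h6 : 1 ≤ Y ^ N * |∑ i, th (f i)| := by
      rw [div_le_iff₀ hY0] at h4
      linarith
    nlinarith
  refine (Finset.sum_le_sum h3).trans (le_of_eq ?_)
  rw [← Finset.sum_mul]
  have h7 : ∑ f ∈ Fintype.piFinset (fun _ : Fin N => S), ∏ i, ‖uc w (f i)‖ =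
      (∑ p ∈ Q, ‖w p‖ * (p : ℝ) ^ (-(1 / 2) : ℝ)) ^ N := by
    have h8 : ∑ x ∈ S, ‖uc w x‖ = ∑ p ∈ Q, ‖w p‖ * (p : ℝ) ^ (-(1 / 2) : ℝ) := by
      rw [hS, Finset.sum_product]
      refine Finset.sum_congr rfl fun p _ => ?_
      rw [Fintype.sum_bool, uc_norm, uc_norm]
      ring
    rw [← h8]
    have h9 : (∑ x ∈ S, ‖uc w x‖) ^ N = ∏ _i : Fin N, ∑ x ∈ S, ‖uc w x‖ := by
      rw [Finset.prod_const, Finset.card_univ, Fintype.card_fin]
    rw [h9, Finset.prod_univ_sum]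
  rw [h7]
  ring

end Pool.Agent.Helper53.OP

namespace Pool.Agent.Helper62.OP

/-- O8b: odd moments (no diagonal: products of different numbers of primes; crude bound for each pair) -/
theorem mom_odd : ∃ T₀ : ℝ, ∀ T Y : ℝ, T₀ ≤ T → 1 ≤ Y → ∀ (Q : Finset ℕ) (w : ℕ → ℂ) (m : ℕ),
    (∀ p ∈ Q, p.Prime ∧ (p : ℝ) ≤ Y) → Y ^ (m + 1) ≤ T ^ (1 / 16 : ℝ) →
    |∫ t in Icc T (2 * T), (DC Q w t).re ^ (2 * m + 1)| ≤
      T ^ (3 / 4 : ℝ) * Real.sqrt (∑ p ∈ Q, ‖w p‖ ^ 2 / p) ^ (2 * m + 1) := by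
  refine ⟨4, fun T Y hT hY Q w m hQ hm => ?_⟩
  have hT0 : 0 < T := by linarith
  have hY0 : 0 < Y := by linarith
  refine (Pool.Agent.Helper53.OP.odd_int hY hQ ⟨m, rfl⟩ w hT0.le).trans ?_
  set W := ∑ p ∈ Q, ‖w p‖ ^ 2 / p with hW
  have hW0 : 0 ≤ W := Finset.sum_nonneg fun p _ => by positivity
  have hcard : (Q.card : ℝ) ≤ Y := by
    have h1 : Q ⊆ Finset.Icc 1 ⌊Y⌋₊ := by
      intro p hp
      exact Finset.mem_Icc.2 ⟨(hQ p hp).1.one_lt.le, Nat.le_floor (hQ p hp).2⟩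
    have h2 := Finset.card_le_card h1
    rw [Nat.card_Icc, Nat.add_sub_cancel] at h2
    calc (Q.card : ℝ) ≤ ⌊Y⌋₊ := by exact_mod_cast h2
      _ ≤ Y := Nat.floor_le hY0.le
  have hcs : ∑ p ∈ Q, ‖w p‖ * (p : ℝ) ^ (-(1 / 2) : ℝ) ≤ Y * Real.sqrt W := by
    have h1 : (∑ p ∈ Q, ‖w p‖ * (p : ℝ) ^ (-(1 / 2) : ℝ)) ^ 2 ≤ Y * W := by
      refine (sq_sum_le_card_mul_sum_sq (s := Q)).trans ?_
      have h2 : ∑ p ∈ Q, (‖w p‖ * (p : ℝ) ^ (-(1 / 2) : ℝ)) ^ 2 = W := by
        refine Finset.sum_congr rfl fun p hp => ?_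
        have hp0 : (0 : ℝ) < p := by exact_mod_cast (hQ p hp).1.pos
        rw [mul_pow, ← Real.rpow_natCast ((p : ℝ) ^ (-(1 / 2) : ℝ)) 2, ← Real.rpow_mul hp0.le]
        norm_num
        rw [Real.rpow_neg_one]
        rfl
      rw [h2]
      exact mul_le_mul_of_nonneg_right hcard hW0
    have h3 : 0 ≤ Y * Real.sqrt W := by positivity
    refine le_of_sq_le_sq ?_ h3
    rw [mul_pow, Real.sq_sqrt hW0]
    refine h1.trans (mul_le_mul_of_nonneg_right ?_ hW0)
    nlinarith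
  have hn0 : 0 ≤ ∑ p ∈ Q, ‖w p‖ * (p : ℝ) ^ (-(1 / 2) : ℝ) := Finset.sum_nonneg fun p _ => by positivity
  calc 2 * Y ^ (2 * m + 1) * (∑ p ∈ Q, ‖w p‖ * (p : ℝ) ^ (-(1 / 2) : ℝ)) ^ (2 * m + 1)
      ≤ 2 * Y ^ (2 * m + 1) * (Y * Real.sqrt W) ^ (2 * m + 1) := by gcongr
    _ = 2 * Y ^ (4 * m + 2) * Real.sqrt W ^ (2 * m + 1) := by
        rw [mul_pow]
        ring
    _ ≤ T ^ (3 / 4 : ℝ) * Real.sqrt W ^ (2 * m + 1) := by
        refine mul_le_mul_of_nonneg_right ?_ (by positivity)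
        have h1 : Y ^ (4 * m + 2) ≤ T ^ (1 / 4 : ℝ) := by
          calc Y ^ (4 * m + 2) ≤ Y ^ (4 * (m + 1)) := pow_le_pow_right₀ hY (by omega)
            _ = (Y ^ (m + 1)) ^ 4 := by rw [← pow_mul]; ring_nf
            _ ≤ (T ^ (1 / 16 : ℝ)) ^ 4 := pow_le_pow_left₀ (by positivity) hm 4
            _ = T ^ (1 / 4 : ℝ) := by
                rw [← Real.rpow_natCast, ← Real.rpow_mul hT0.le]
                norm_num
        have h2 : 2 ≤ T ^ (1 / 2 : ℝ) := by
          calc (2 : ℝ) = 4 ^ (1 / 2 : ℝ) := by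
                rw [show (4 : ℝ) = 2 ^ (2 : ℝ) by norm_num, ← Real.rpow_mul (by norm_num)]
                norm_num
            _ ≤ T ^ (1 / 2 : ℝ) := Real.rpow_le_rpow (by norm_num) hT (by norm_num)
        have h3 : T ^ (3 / 4 : ℝ) = T ^ (1 / 2 : ℝ) * T ^ (1 / 4 : ℝ) := by
          rw [← Real.rpow_add hT0]
          norm_num
        rw [h3]
        have h4 : 0 ≤ T ^ (1 / 4 : ℝ) := by positivity
        exact mul_le_mul h2 h1 (by positivity) (by positivity)

end Pool.Agent.Helper62.OP
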